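import Pool.Agent.P8H15.EK.Stm

/-!
# Project EK: IDX (pigeonhole)
-/

set_option autoImplicit false

open Polynomial NumberField IsDedekindDomain

namespace Pool.Agent.P8H76.EK

open Pool.Agent.P8H15.EK
open Pool.Agent.N783.PF (IsGen Lat fF Bd)
open Pool.Agent.P8H15.BR (el InR)
open Pool.Agent.N61.PF (pol)

lemma isSquare_of_even (m : ℤ) (h : Even m) :
    IsSquare ((Multiplicative.ofAdd m : Multiplicative ℤ) : WithZero (Multiplicative ℤ)) := by
  obtain ⟨k, rfl⟩ := h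
  exact ⟨((Multiplicative.ofAdd k : Multiplicative ℤ) : WithZero (Multiplicative ℤ)), by
    rw [← WithZero.coe_mul, ofAdd_add]⟩

lemma sq_mul_of_iff {x y : WithZero (Multiplicative ℤ)} (hx : x ≠ 0) (hy : y ≠ 0)
    (h : IsSquare x ↔ IsSquare y) : IsSquare (x * y) := by
  by_cases hx' : IsSquare x
  · exact hx'.mul (h.1 hx')
  · have hy' : ¬ IsSquare y := fun h' => hx' (h.2 h')
    obtain ⟨m, rfl⟩ := WithZero.ne_zero_iff_exists.1 hx
    obtain ⟨n, rfl⟩ := WithZero.ne_zero_iff_exists.1 hy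
    have h1 : ¬ Even (Multiplicative.toAdd m) := fun h1 => hx' (isSquare_of_even _ h1)
    have h2 : ¬ Even (Multiplicative.toAdd n) := fun h1 => hy' (isSquare_of_even _ h1)
    rw [← WithZero.coe_mul]
    have h3 : Even (Multiplicative.toAdd m + Multiplicative.toAdd n) := by
      rw [Int.not_even_iff_odd] at h1 h2
      exact h1.add_odd h2
    exact isSquare_of_even _ h3

lemma pigeon {α β : Type} [DecidableEq α] [DecidableEq β] (s : Finset α) (t : Finset β)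
    (f : α → β) (hf : ∀ x ∈ s, f x ∈ t) :
    ∃ s₁ ⊆ s, (∀ x ∈ s₁, ∀ y ∈ s₁, f x = f y) ∧ s.card ≤ t.card * s₁.card := by
  rcases t.eq_empty_or_nonempty with rfl | ht
  · have : s = ∅ := Finset.eq_empty_of_forall_notMem fun x hx => by simpa using hf x hx
    exact ⟨∅, by simp, by simp, by simp [this]⟩
  · obtain ⟨b, hb, hmax⟩ := t.exists_max_image (fun b => (s.filter fun x => f x = b).card) ht
    refine ⟨s.filter fun x => f x = b, Finset.filter_subset _ _, ?_, ?_⟩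
    · intro x hx y hy
      rw [(Finset.mem_filter.1 hx).2, (Finset.mem_filter.1 hy).2]
    · rw [Finset.card_eq_sum_card_fiberwise (f := f) (t := t) hf]
      calc ∑ b ∈ t, (s.filter fun x => f x = b).card
          ≤ ∑ _b' ∈ t, (s.filter fun x => f x = b).card :=
            Finset.sum_le_sum fun b' hb' => hmax b' hb'
        _ = t.card * (s.filter fun x => f x = b).card := by rw [Finset.sum_const, smul_eq_mul]

/-- a maximal set of pairwise unrelated elements -/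
lemma indep {α : Type} (s : Finset α) (rel : α → α → Prop)
    (hsym : ∀ x y, rel x y → rel y x) (hrefl : ∀ x ∈ s, rel x x) :
    ∃ R ⊆ s, (∀ x ∈ R, ∀ y ∈ R, rel x y → x = y) ∧ ∀ x ∈ s, ∃ y ∈ R, rel x y := by
  classical
  let P : Finset α → Prop := fun R => ∀ x ∈ R, ∀ y ∈ R, rel x y → x = y
  obtain ⟨R, hR, hmax⟩ := Set.exists_max_image {R : Finset α | R ⊆ s ∧ P R} Finset.card
    (s.powerset.finite_toSet.subset fun R hR => Finset.mem_coe.2 (Finset.mem_powerset.2 hR.1))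
    ⟨∅, Finset.empty_subset s, by simp [P]⟩
  refine ⟨R, hR.1, hR.2, fun x hx => ?_⟩
  by_contra hcon
  push Not at hcon
  have hxR : x ∉ R := fun h => hcon x h (hrefl x hx)
  have h1 := hmax (insert x R) (by
    refine ⟨Finset.insert_subset hx hR.1, ?_⟩
    intro y hy z hz hyz
    rcases Finset.mem_insert.1 hy with hy1 | hy1
    · rcases Finset.mem_insert.1 hz with hz1 | hz1
      · rw [hy1, hz1]
      · rw [hy1] at hyz
        exact absurd hyz (hcon z hz1)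
    · rcases Finset.mem_insert.1 hz with hz1 | hz1
      · rw [hz1] at hyz
        exact absurd (hsym _ _ hyz) (hcon y hy1)
      · exact hR.2 y hy1 z hz1 hyz)
  rw [Finset.card_insert_of_notMem hxR] at h1
  omega

section

variable {F L : Type} [Field F] [NumberField F] [Field L] [NumberField L] [Algebra F L]

lemma val_ne {w : HeightOneSpectrum (𝓞 L)} {α : L} (h : α ≠ 0) : w.valuation L α ≠ 0 :=
  (Valuation.ne_zero_iff _).2 h

/-- a prime over a prime containing `D` -/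
lemma exists_under (D : Ideal (𝓞 F)) (hD : D ≠ ⊥) (w : HeightOneSpectrum (𝓞 L))
    (h : D.map (algebraMap (𝓞 F) (𝓞 L)) ≤ w.asIdeal) :
    ∃ v : HeightOneSpectrum (𝓞 F), D ≤ v.asIdeal ∧ Over v w := by
  have h1 : D ≤ Ideal.comap (algebraMap (𝓞 F) (𝓞 L)) w.asIdeal := Ideal.map_le_iff_le_comap.1 h
  have := w.isPrime
  refine ⟨⟨Ideal.comap (algebraMap (𝓞 F) (𝓞 L)) w.asIdeal, Ideal.comap_isPrime _ _, ?_⟩, h1,
    fun z hz => hz⟩
  intro hb
  rw [hb, le_bot_iff] at h1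
  exact hD h1

end

theorem idx : S_CON → S_LAT → S_COP → S_SQI → S_ABV → S_IDX := by
  classical
  intro hCON hLAT hCOP hSQI hABV F L _ _ _ _ _ a b θ hG T hT s hs hsα
  have hrank : Module.finrank F L = 3 := hG.rank
  obtain ⟨D, hD0, hDv, hDR⟩ := hCON F L a b θ hG
  obtain ⟨W, hWc, hW⟩ := hABV F L hrank T
  set 𝔫 : Ideal (𝓞 L) := D.map (algebraMap (𝓞 F) (𝓞 L)) with h𝔫
  have hn0 : 𝔫 ≠ ⊥ := by
    intro h
    exact hD0 ((Ideal.map_eq_bot_iff_of_injective
      (FaithfulSMul.algebraMap_injective (𝓞 F) (𝓞 L))).1 h)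
  have hnW : ∀ w : HeightOneSpectrum (𝓞 L), 𝔫 ≤ w.asIdeal → w ∈ W := by
    intro w hw
    obtain ⟨v, hv, hvw⟩ := exists_under D hD0 w hw
    exact hW w ⟨v, hT v (hDv v hv), hvw⟩
  -- parities
  obtain ⟨s₁, hs₁, hpar, hc₁⟩ := pigeon s W.powerset
    (fun α => W.filter fun w => IsSquare (w.valuation L α)) (fun α _ => by
      rw [Finset.mem_powerset]; exact Finset.filter_subset _ _)
  rw [Finset.card_powerset] at hc₁
  rcases s₁.eq_empty_or_nonempty with rfl | ⟨α₁, hα₁⟩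
  · refine ⟨∅, by simp [Ineq], by simp, ?_⟩
    simp only [Finset.card_empty, mul_zero] at hc₁
    omega
  have hα₁0 : α₁ ≠ 0 := (hsα α₁ (hs₁ hα₁)).1
  have heven : ∀ α ∈ s₁, ∀ w : HeightOneSpectrum (𝓞 L), IsSquare (w.valuation L (α * α₁)) := by
    intro α hα w
    have hα0 : α ≠ 0 := (hsα α (hs₁ hα)).1
    rw [map_mul]
    apply sq_mul_of_iff (val_ne hα0) (val_ne hα₁0)
    by_cases hw : w ∈ W
    · have h1 := hpar α hα α₁ hα₁
      have h2 := Finset.ext_iff.1 h1 w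
      simpa [hw] using h2
    · have h1 : ∀ v ∈ T, ¬ Over v w := fun v hv hvw => hw (hW w ⟨v, hv, hvw⟩)
      exact ⟨fun _ => (hsα α₁ (hs₁ hα₁)).2.2 w h1, fun _ => (hsα α (hs₁ hα)).2.2 w h1⟩
  -- representatives coprime to `𝔫`
  have hcop : ∀ α : L, ∃ (c : L) (β : 𝓞 L) (𝔞 : Ideal (𝓞 L)), α ∈ s₁ → (c ≠ 0 ∧
      (β : L) = α * α₁ * c ^ 2 ∧ Ideal.span {β} = 𝔞 ^ 2 ∧ Ideal.span {β} ⊔ 𝔫 = ⊤) := by
    intro α
    by_cases hα : α ∈ s₁
    · obtain ⟨c, β, 𝔞, h⟩ := hCOP L (α * α₁) 𝔫 (mul_ne_zero (hsα α (hs₁ hα)).1 hα₁0) hn0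
        (heven α hα)
      exact ⟨c, β, 𝔞, fun _ => h⟩
    · exact ⟨0, 0, ⊥, fun h => absurd h hα⟩
  choose c β 𝔞 hβ using hcop
  let rel : L → L → Prop := fun x y => ∃ e : 𝓞 L, β x * β y * e ^ 2 - 1 ∈ 𝔫
  have hrefl : ∀ x ∈ s₁, rel x x := by
    intro x hx
    have h1 : (1 : 𝓞 L) ∈ Ideal.span {β x} ⊔ 𝔫 := by rw [(hβ x hx).2.2.2]; trivial
    obtain ⟨y, hy, z, hz, hyz⟩ := Submodule.mem_sup.1 h1
    obtain ⟨e, rfl⟩ := Ideal.mem_span_singleton'.1 hy
    refine ⟨e, ?_⟩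
    have h2 : β x * β x * e ^ 2 - 1 = -(e * β x + 1) * z := by
      have : z = 1 - e * β x := by rw [← hyz]; ring
      rw [this]; ring
    rw [h2]
    exact Ideal.mul_mem_left _ _ hz
  obtain ⟨R, hRs, hRi, hRr⟩ := indep s₁ rel (fun x y h => by
    obtain ⟨e, he⟩ := h
    exact ⟨e, by rwa [mul_comm (β y) (β x)]⟩) hrefl
  have hRc : R.card ≤ 2 ^ (W.card + Module.finrank ℚ L) := by
    have h1 : (R.image β).card = R.card := by
      apply Finset.card_image_of_injOn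
      intro x hx y hy hxy
      apply hRi x hx y hy
      obtain ⟨e, he⟩ := hrefl x (hRs hx)
      exact ⟨e, by rw [← (show β x = β y from hxy)]; exact he⟩
    rw [← h1]
    refine hSQI L 𝔫 hn0 W hnW (R.image β) ?_ ?_
    · intro x hx
      obtain ⟨x', hx', rfl⟩ := Finset.mem_image.1 hx
      exact (hβ x' (hRs hx')).2.2.2
    · intro x hx y hy hxy
      obtain ⟨x', hx', rfl⟩ := Finset.mem_image.1 hx
      obtain ⟨y', hy', rfl⟩ := Finset.mem_image.1 hy
      rw [hRi x' hx' y' hy' hxy]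
  have hg : ∀ x : L, ∃ y : L, x ∈ s₁ → (y ∈ R ∧ rel x y) := by
    intro x
    by_cases hx : x ∈ s₁
    · obtain ⟨y, hy, hxy⟩ := hRr x hx
      exact ⟨y, fun _ => ⟨hy, hxy⟩⟩
    · exact ⟨0, fun h => absurd h hx⟩
  choose g hg using hg
  obtain ⟨s₂, hs₂, hg2, hc₂⟩ := pigeon s₁ R g (fun x hx => (hg x hx).1)
  have hfin : Module.finrank ℚ L = 3 * Module.finrank ℚ F := by
    rw [← Module.finrank_mul_finrank ℚ F L, hrank, mul_comm]
  have hcard : s.card ≤ s₂.card * 2 ^ (6 * T.card + 3 * Module.finrank ℚ F) := by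
    calc s.card ≤ 2 ^ W.card * s₁.card := hc₁
      _ ≤ 2 ^ W.card * (R.card * s₂.card) := Nat.mul_le_mul_left _ hc₂
      _ ≤ 2 ^ W.card * (2 ^ (W.card + Module.finrank ℚ L) * s₂.card) :=
          Nat.mul_le_mul_left _ (Nat.mul_le_mul_right _ hRc)
      _ = s₂.card * 2 ^ (W.card + W.card + 3 * Module.finrank ℚ F) := by
          rw [hfin]; ring
      _ ≤ s₂.card * 2 ^ (6 * T.card + 3 * Module.finrank ℚ F) := by
          apply Nat.mul_le_mul_left
          apply Nat.pow_le_pow_right (by norm_num)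
          omega
  rcases s₂.eq_empty_or_nonempty with rfl | ⟨α₃, hα₃⟩
  · refine ⟨∅, by simp [Ineq], by simp, ?_⟩
    simpa using hcard
  set r : L := g α₃ with hr
  have hrR : r ∈ R := (hg α₃ (hs₂ hα₃)).1
  have hrs : r ∈ s₁ := hRs hrR
  have hr0 : r ≠ 0 := (hsα r (hs₁ hrs)).1
  have hrel : ∀ α : L, ∃ e : 𝓞 L, α ∈ s₂ → (e ≠ 0 ∧ β α * β r * e ^ 2 - 1 ∈ 𝔫) := by
    intro α
    by_cases hα : α ∈ s₂
    · have h1 : rel α r := by
        have h2 := (hg α (hs₂ hα)).2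
        rwa [hg2 α hα α₃ hα₃] at h2
      obtain ⟨e, he⟩ := h1
      by_cases he0 : e = 0
      · refine ⟨1, fun _ => ⟨one_ne_zero, ?_⟩⟩
        rw [he0] at he
        have h3 : 𝔫 = ⊤ := by
          rw [Ideal.eq_top_iff_one]
          have h4 := 𝔫.neg_mem he
          simpa using h4
        rw [h3]
        trivial
      · exact ⟨e, fun _ => ⟨he0, he⟩⟩
    · exact ⟨0, fun h => absurd h hα⟩
  choose e he using hrel
  let δ : L → 𝓞 L := fun α => β α * β r * e α ^ 2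
  let q : L → L := fun α => α₁ * c α * c r * (e α : L)
  have hδ : ∀ α ∈ s₂, (δ α : L) = α * r * q α ^ 2 := by
    intro α hα
    have h1 := (hβ α (hs₂ hα)).2.1
    have h2 := (hβ r hrs).2.1
    have h0 : ((β α * β r * e α ^ 2 : 𝓞 L) : L) =
        ((β α : 𝓞 L) : L) * ((β r : 𝓞 L) : L) * ((e α : 𝓞 L) : L) ^ 2 := by
      rfl
    show ((β α * β r * e α ^ 2 : 𝓞 L) : L) = α * r * (α₁ * c α * c r * (e α : L)) ^ 2
    rw [h0, h1, h2]
    ring
  have hq : ∀ α ∈ s₂, q α ≠ 0 := by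
    intro α hα
    have h1 := (hβ α (hs₂ hα)).1
    have h2 := (hβ r hrs).1
    have h3 : (e α : L) ≠ 0 := by
      intro h4
      exact (he α hα).1 (by exact_mod_cast h4)
    exact mul_ne_zero (mul_ne_zero (mul_ne_zero hα₁0 h1) h2) h3
  have hδ0 : ∀ α ∈ s₂, (δ α : L) ≠ 0 := by
    intro α hα
    rw [hδ α hα]
    exact mul_ne_zero (mul_ne_zero (hsα α (hs₁ (hs₂ hα))).1 hr0) (pow_ne_zero 2 (hq α hα))
  have hkey : ∀ α ∈ s₂, ∀ α' ∈ s₂, (∃ z : L, (δ α : L) = z ^ 2 * (δ α' : L)) → α = α' := by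
    rintro α hα α' hα' ⟨z, hz⟩
    apply hs α (hs₁ (hs₂ hα)) α' (hs₁ (hs₂ hα'))
    refine ⟨z * q α' / q α, ?_⟩
    rw [hδ α hα, hδ α' hα'] at hz
    have h1 := hq α hα
    field_simp
    have h2 : r * (α * q α ^ 2) = r * (z ^ 2 * q α' ^ 2 * α') := by
      linear_combination hz
    exact mul_left_cancel₀ hr0 h2
  refine ⟨s₂.image fun α => (δ α : L), ?_, ?_, ?_⟩
  · intro x hx y hy hxy
    obtain ⟨α, hα, rfl⟩ := Finset.mem_image.1 hx
    obtain ⟨α', hα', rfl⟩ := Finset.mem_image.1 hy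
    rw [hkey α hα α' hα' hxy]
  · intro x hx
    obtain ⟨α, hα, rfl⟩ := Finset.mem_image.1 hx
    refine ⟨hδ0 α hα, ?_, ?_⟩
    · rw [hδ α hα, map_mul, map_mul, map_pow]
      exact ((hsα α (hs₁ (hs₂ hα))).2.1.mul (hsα r (hs₁ hrs)).2.1).mul (IsSquare.sq _)
    · refine hLAT F L a b θ hG D hD0 hDR (δ α) (𝔞 α * 𝔞 r * Ideal.span {e α}) ?_ ?_
        (he α hα).2
      · intro h
        exact hδ0 α hα (by rw [h]; simp)
      · show Ideal.span {β α * β r * e α ^ 2} = _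
        rw [← Ideal.span_singleton_mul_span_singleton, ← Ideal.span_singleton_mul_span_singleton,
          (hβ α (hs₂ hα)).2.2.1, (hβ r hrs).2.2.1, ← Ideal.span_singleton_pow]
        ring
  · have h1 : (s₂.image fun α => (δ α : L)).card = s₂.card := by
      apply Finset.card_image_of_injOn
      intro x hx y hy hxy
      exact hkey x hx y hy ⟨1, by rw [one_pow, one_mul]; exact hxy⟩
    rw [h1]
    exact hcard

end Pool.Agent.P8H76.EK
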