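import Pool.Agent.P8H15.EK.Stm

/-!
# Project EK: RAM and ABV
-/

set_option autoImplicit false

open NumberField IsDedekindDomain

namespace Pool.Agent.P8H76.EK

open Pool.Agent.P8H15.EK

variable {F L : Type} [Field F] [NumberField F] [Field L] [NumberField L] [Algebra F L]

lemma comap_eq {v : HeightOneSpectrum (𝓞 F)} {w : HeightOneSpectrum (𝓞 L)} (h : Over v w) :
    Ideal.comap (algebraMap (𝓞 F) (𝓞 L)) w.asIdeal = v.asIdeal := by
  have h1 : v.asIdeal ≤ Ideal.comap (algebraMap (𝓞 F) (𝓞 L)) w.asIdeal := fun z hz => h z hz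
  have := w.isPrime
  have h2 : Ideal.comap (algebraMap (𝓞 F) (𝓞 L)) w.asIdeal ≠ ⊤ :=
    Ideal.comap_ne_top _ w.isPrime.ne_top
  exact (v.isMaximal.eq_of_le h2 h1).symm

lemma over_unique {v v' : HeightOneSpectrum (𝓞 F)} {w : HeightOneSpectrum (𝓞 L)} (h : Over v w)
    (h' : Over v' w) : v = v' :=
  HeightOneSpectrum.ext ((comap_eq h).symm.trans (comap_eq h'))

theorem ram : S_RAM := by
  intro F K _ _ _ _ _
  have hfin : {w : HeightOneSpectrum (𝓞 K) | w.asIdeal ∣ differentIdeal (𝓞 F) (𝓞 K)}.Finite :=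
    Ideal.finite_factors differentIdeal_ne_bot
  have h2 : (⋃ w ∈ {w : HeightOneSpectrum (𝓞 K) | w.asIdeal ∣ differentIdeal (𝓞 F) (𝓞 K)},
      {v : HeightOneSpectrum (𝓞 F) | Over v w}).Finite := by
    refine hfin.biUnion fun w _ => Set.Subsingleton.finite ?_
    intro v hv v' hv'
    exact over_unique hv hv'
  refine h2.subset ?_
  rintro v ⟨w, hw, hle⟩
  refine Set.mem_biUnion (x := w) ?_ hw
  have := v.isMaximal
  have h1 := pow_sub_one_dvd_differentIdeal (𝓞 F) w.asIdeal 2 v.ne_bot (Ideal.dvd_iff_le.2 hle)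
  simpa using h1

theorem abv : S_ABV := by
  classical
  intro F L _ _ _ _ _ h3 T
  have hnz : NoZeroSMulDivisors (𝓞 F) (𝓞 L) := by
    constructor
    intro c x h
    rw [Algebra.smul_def] at h
    rcases mul_eq_zero.1 h with h1 | h1
    · left
      exact (map_eq_zero_iff _ (FaithfulSMul.algebraMap_injective (𝓞 F) (𝓞 L))).1 h1
    · exact Or.inr h1
  let P : HeightOneSpectrum (𝓞 F) → Finset (HeightOneSpectrum (𝓞 L)) := fun v =>
    (IsDedekindDomain.primesOverFinset v.asIdeal (𝓞 L)).preimage HeightOneSpectrum.asIdeal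
      (fun a _ b _ h => HeightOneSpectrum.ext h)
  have hPm : ∀ v w, w ∈ P v ↔ w.asIdeal ∈ IsDedekindDomain.primesOverFinset v.asIdeal (𝓞 L) :=
    fun v w => Finset.mem_preimage
  have hP : ∀ v, (P v).card ≤ 3 := by
    intro v
    have := v.isMaximal
    have h1 : (IsDedekindDomain.primesOverFinset v.asIdeal (𝓞 L)).card ≤ Module.finrank F L :=
      Ideal.card_primesOverFinset_le_finrank (𝓞 L) F L v.ne_bot
    rw [h3] at h1
    refine le_trans ?_ h1
    exact Finset.card_le_card_of_injOn HeightOneSpectrum.asIdeal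
      (fun w hw => (hPm v w).1 hw) (fun a _ b _ h => HeightOneSpectrum.ext h)
  refine ⟨T.biUnion P, ?_, ?_⟩
  · rw [mul_comm]
    exact Finset.card_biUnion_le_card_mul T P 3 fun v _ => hP v
  · rintro w ⟨v, hv, hw⟩
    refine Finset.mem_biUnion.2 ⟨v, hv, (hPm v w).2 ?_⟩
    have := v.isMaximal
    rw [IsDedekindDomain.mem_primesOverFinset_iff v.ne_bot]
    exact ⟨w.isPrime, ⟨(comap_eq hw).symm⟩⟩

end Pool.Agent.P8H76.EK
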